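import Pool.Agent.Lib.MP_4ed7e0_lc.Res

/-!
Low degree case of (R4): substitutions, specialization of points, coordinates.
-/

set_option autoImplicit false

namespace Pool.Agent.R4L

open MvPolynomial Pool.Agent.R4A

noncomputable section

universe u v

variable {K : Type u} [Field K] {A : Type v} [CommRing A] [Algebra K A]

/-- evaluation at `(x0, x)` through the polynomial in the first variable -/
theorem aeval_cons {n : ℕ} (F : MvPolynomial (Fin (n + 1)) K) (x0 : A) (x : Fin n → A) :
    aeval (Fin.cons x0 x : Fin (n + 1) → A) F =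
      (finSuccEquiv K n F).eval₂ (aeval x : MvPolynomial (Fin n) K →ₐ[K] A).toRingHom x0 := by
  induction F using MvPolynomial.induction_on with
  | C a =>
    rw [finSuccEquiv_apply]
    simp
  | add p q hp hq => rw [map_add, map_add, Polynomial.eval₂_add, hp, hq]
  | mul_X p i hp =>
    rw [map_mul, map_mul, Polynomial.eval₂_mul, hp, aeval_X]
    congr 1
    refine Fin.cases ?_ (fun j => ?_) i
    · simp [finSuccEquiv_X_zero]
    · simp [finSuccEquiv_X_succ]

/-- the coefficient of `X_0 ^ i` -/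
def cf {n : ℕ} (i : ℕ) (F : MvPolynomial (Fin (n + 1)) K) : MvPolynomial (Fin n) K :=
  (finSuccEquiv K n F).coeff i

theorem cf_hom {n d : ℕ} {F : MvPolynomial (Fin (n + 1)) K} (hF : F.IsHomogeneous d) {i j : ℕ}
    (h : i + j = d) : (cf i F).IsHomogeneous j :=
  hF.finSuccEquiv_coeff_isHomogeneous i j h

theorem cf_natDegree_le {n d : ℕ} {F : MvPolynomial (Fin (n + 1)) K} (hF : F.IsHomogeneous d) :
    (finSuccEquiv K n F).natDegree ≤ d := by
  rw [natDegree_finSuccEquiv]
  exact (degreeOf_le_totalDegree F 0).trans hF.totalDegree_le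

theorem aeval_cons_sum {n N : ℕ} (F : MvPolynomial (Fin (n + 1)) K)
    (hN : (finSuccEquiv K n F).natDegree < N) (x0 : A) (x : Fin n → A) :
    aeval (Fin.cons x0 x : Fin (n + 1) → A) F = ∑ i ∈ Finset.range N, aeval x (cf i F) * x0 ^ i := by
  rw [aeval_cons, Polynomial.eval₂_eq_sum_range' _ hN]
  rfl

/-- substitution -/
theorem aeval_sub {m n : ℕ} (s : Fin m → MvPolynomial (Fin n) K) (x : Fin n → A)
    (F : MvPolynomial (Fin m) K) :
    aeval x (aeval s F) = aeval (fun i => aeval x (s i)) F :=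
  comp_aeval_apply s (aeval x) F

theorem hom_sub {m n d : ℕ} {s : Fin m → MvPolynomial (Fin n) K} (hs : ∀ i, (s i).IsHomogeneous 1)
    {F : MvPolynomial (Fin m) K} (hF : F.IsHomogeneous d) :
    (aeval s F : MvPolynomial (Fin n) K).IsHomogeneous d := by
  have := hF.aeval s (n := 1) hs
  rwa [one_mul] at this

/-- scaling -/
theorem hom_smul {n d : ℕ} {F : MvPolynomial (Fin n) K} (hF : F.IsHomogeneous d) (c : A)
    (x : Fin n → A) : aeval (fun i => c * x i) F = c ^ d * aeval x F := by
  rw [aeval_def, aeval_def, eval₂_eq', eval₂_eq', Finset.mul_sum]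
  apply Finset.sum_congr rfl
  intro m hm
  have h1 : ∏ i, (c * x i) ^ m i = c ^ d * ∏ i, x i ^ m i := by
    simp_rw [mul_pow]
    rw [Finset.prod_mul_distrib, Finset.prod_pow_eq_pow_sum]
    congr 2
    have := hF.degree_eq_sum_deg_support hm
    rw [this]
    symm
    apply Finset.sum_subset (Finset.subset_univ m.support)
    intro i _ hi
    simpa using hi
  rw [h1]
  ring

theorem aeval_zero_pt {n : ℕ} {F : MvPolynomial (Fin n) K} {L : Type v} [Field L] [Algebra K L]
    (h : aeval (0 : Fin n → L) F = 0) : aeval (0 : Fin n → K) F = 0 := by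
  have h1 : aeval (0 : Fin n → L) F = algebraMap K L (constantCoeff F) := by
    rw [MvPolynomial.aeval_zero]
  have h2 : aeval (0 : Fin n → K) F = constantCoeff F := by
    rw [MvPolynomial.aeval_zero]; rfl
  rw [h2]
  rw [h1] at h
  exact (map_eq_zero _).1 h

theorem aeval_zero_pt_ne {n : ℕ} {G : MvPolynomial (Fin n) K} {L : Type v} [Field L] [Algebra K L]
    (h : aeval (0 : Fin n → L) G ≠ 0) : aeval (0 : Fin n → K) G ≠ 0 := by
  have h1 : aeval (0 : Fin n → L) G = algebraMap K L (constantCoeff G) := by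
    rw [MvPolynomial.aeval_zero]
  have h2 : aeval (0 : Fin n → K) G = constantCoeff G := by
    rw [MvPolynomial.aeval_zero]; rfl
  rw [h2]
  rw [h1] at h
  exact fun h0 => h (by rw [h0, map_zero])

/-- specialization of a point at a rational place -/
theorem spec {L : Type u} [Field L] [Algebra K L] {O : ValuationSubring L} (h : IsRat K O)
    {n : ℕ} (ξ : Fin n → L) (hξ : ξ ≠ 0) :
    ∃ P : Fin n → K, P ≠ 0 ∧ ∀ (F : MvPolynomial (Fin n) K) (d : ℕ), F.IsHomogeneous d →
      aeval ξ F = 0 → aeval P F = 0 := by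
  obtain ⟨j, hj⟩ := Function.ne_iff.1 hξ
  have hne : (Finset.univ : Finset (Fin n)).Nonempty := ⟨j, Finset.mem_univ _⟩
  obtain ⟨i0, -, hi0⟩ := Finset.exists_max_image Finset.univ (fun i => O.valuation (ξ i)) hne
  have hξ0 : ξ i0 ≠ 0 := by
    intro h0
    have h1 := hi0 j (Finset.mem_univ _)
    simp only [h0, map_zero] at h1
    rw [le_zero_iff, map_eq_zero] at h1
    exact hj h1
  obtain ⟨res, -, r2, r3, r4, -, -⟩ := exists_res h
  set η : Fin n → L := fun i => (ξ i0)⁻¹ * ξ i with hη
  have hηO : ∀ i, η i ∈ O := by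
    intro i
    rw [← O.valuation_le_one_iff, hη]
    simp only [map_mul, map_inv₀]
    have h1 := hi0 i (Finset.mem_univ _)
    have h2 : O.valuation (ξ i0) ≠ 0 := by simpa using hξ0
    calc (O.valuation (ξ i0))⁻¹ * O.valuation (ξ i)
        ≤ (O.valuation (ξ i0))⁻¹ * O.valuation (ξ i0) := mul_le_mul_right h1 _
      _ = 1 := inv_mul_cancel₀ h2
  refine ⟨fun i => res (η i), ?_, ?_⟩
  · apply Function.ne_iff.2
    refine ⟨i0, ?_⟩
    have h1 : η i0 = 1 := inv_mul_cancel₀ hξ0
    have h2 : res 1 = 1 := by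
      have := r2 1
      rwa [map_one] at this
    show res (η i0) ≠ 0
    rw [h1, h2]
    exact one_ne_zero
  · intro F d hF hF0
    have key : ∀ H : MvPolynomial (Fin n) K, aeval η H ∈ O ∧
        res (aeval η H) = aeval (fun i => res (η i)) H := by
      intro H
      induction H using MvPolynomial.induction_on with
      | C a =>
        rw [MvPolynomial.aeval_C, MvPolynomial.aeval_C]
        exact ⟨h.1 a, r2 a⟩
      | add p q hp hq =>
        rw [map_add, map_add]
        exact ⟨O.add_mem _ _ hp.1 hq.1, by rw [r3 _ hp.1 _ hq.1, hp.2, hq.2]⟩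
      | mul_X p i hp =>
        rw [map_mul, map_mul, aeval_X, aeval_X]
        exact ⟨O.mul_mem _ _ hp.1 (hηO i), by rw [r4 _ hp.1 _ (hηO i), hp.2]⟩
    have h1 : aeval η F = 0 := by
      rw [hη, hom_smul hF, hF0, mul_zero]
    have h2 := (key F).2
    rw [h1] at h2
    have h3 : res 0 = 0 := by
      have := r2 0
      rwa [map_zero] at this
    rw [← h2, h3]

/-- new coordinates in which the given point is the first basis vector -/
theorem coord {n : ℕ} {P : Fin (n + 1) → K} (hP : P ≠ 0) :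
    ∃ s s' : Fin (n + 1) → MvPolynomial (Fin (n + 1)) K, (∀ i, (s i).IsHomogeneous 1) ∧
      (∀ i, (s' i).IsHomogeneous 1) ∧
      (∀ i, aeval P (s' i) = (Pi.single 0 1 : Fin (n + 1) → K) i) ∧
      ∀ (B : Type u) [CommRing B] [Algebra K B] (ξ : Fin (n + 1) → B) (i : Fin (n + 1)),
        aeval (fun j => aeval ξ (s' j)) (s i) = ξ i := by
  obtain ⟨i0, hi0⟩ := Function.ne_iff.1 hP
  have hi0' : P i0 ≠ 0 := hi0
  let σ := Equiv.swap (0 : Fin (n + 1)) i0
  have hσ0 : σ 0 = i0 := Equiv.swap_apply_left _ _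
  have hσi : σ i0 = 0 := Equiv.swap_apply_right _ _
  have hσσ : ∀ i, σ (σ i) = i := fun i => Equiv.swap_apply_self _ _ _
  refine ⟨fun i => C (P i) * X 0 + (if i = i0 then 0 else X (σ i)),
    fun j => if j = 0 then C (P i0)⁻¹ * X i0 else X (σ j) - C (P (σ j) * (P i0)⁻¹) * X i0,
    ?_, ?_, ?_, ?_⟩
  · intro i
    refine (isHomogeneous_C_mul_X _ _).add ?_
    split_ifs
    · exact isHomogeneous_zero _ _ _
    · exact isHomogeneous_X _ _
  · intro j
    dsimp only
    split_ifs
    · exact isHomogeneous_C_mul_X _ _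
    · exact (isHomogeneous_X _ _).sub (isHomogeneous_C_mul_X _ _)
  · intro j
    dsimp only
    split_ifs with hj
    · subst hj
      simp [hi0']
    · have : (Pi.single 0 1 : Fin (n + 1) → K) j = 0 := by simp [hj]
      rw [this]
      simp [hi0']
  · intro B _ _ ξ i
    have h0 : algebraMap K B (P i0)⁻¹ * algebraMap K B (P i0) = 1 := by
      rw [← map_mul, inv_mul_cancel₀ hi0', map_one]
    have h0' : algebraMap K B (P i0) * algebraMap K B (P i0)⁻¹ = 1 := by
      rw [mul_comm, h0]
    by_cases hi : i = i0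
    · subst hi
      simp only [if_true, add_zero, map_mul, MvPolynomial.aeval_C, aeval_X]
      rw [← mul_assoc, h0', one_mul]
    · have hσ : σ i ≠ 0 := by
        intro h1
        apply hi
        rw [← hσσ i, h1, hσ0]
      simp only [hi, hσ, if_true, if_false, map_add, map_mul, map_sub, MvPolynomial.aeval_C,
        aeval_X, hσσ]
      ring

/-- a linear form -/
theorem lin_form {n : ℕ} {F : MvPolynomial (Fin n) K} (hF : F.IsHomogeneous 1) :
    ∃ a : Fin n → K, F = ∑ i, C (a i) * X i := by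
  have h1 : F ∈ homogeneousSubmodule (Fin n) K 1 := hF
  rw [homogeneousSubmodule_one_eq_span_X, Submodule.mem_span_range_iff_exists_fun] at h1
  obtain ⟨a, ha⟩ := h1
  refine ⟨a, ?_⟩
  rw [← ha]
  simp [MvPolynomial.smul_eq_C_mul]

/-- coordinates on a hyperplane -/
theorem hyper {n : ℕ} {F : MvPolynomial (Fin (n + 1)) K} (hF : F.IsHomogeneous 1) (h0 : F ≠ 0) :
    ∃ s : Fin (n + 1) → MvPolynomial (Fin n) K, (∀ i, (s i).IsHomogeneous 1) ∧
      aeval s F = 0 ∧
      ∀ (B : Type u) [CommRing B] [Algebra K B] (ξ : Fin (n + 1) → B), aeval ξ F = 0 →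
        ∃ η : Fin n → B, ∀ i, aeval η (s i) = ξ i := by
  obtain ⟨a, rfl⟩ := lin_form hF
  have hex : ∃ i0, a i0 ≠ 0 := by
    by_contra hcon
    push Not at hcon
    apply h0
    simp [hcon]
  obtain ⟨i0, hi0⟩ := hex
  let s : Fin (n + 1) → MvPolynomial (Fin n) K := i0.insertNth
    (∑ j, C (-(a i0)⁻¹ * a (i0.succAbove j)) * X j) (fun j => X j)
  have hs0 : s i0 = ∑ j, C (-(a i0)⁻¹ * a (i0.succAbove j)) * X j := Fin.insertNth_apply_same _ _ _
  have hsj : ∀ j, s (i0.succAbove j) = X j := fun j => Fin.insertNth_apply_succAbove _ _ _ _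
  refine ⟨s, ?_, ?_, ?_⟩
  · intro i
    rcases Fin.eq_self_or_eq_succAbove i0 i with rfl | ⟨j, rfl⟩
    · rw [hs0]
      exact IsHomogeneous.sum _ _ _ fun j _ => isHomogeneous_C_mul_X _ _
    · rw [hsj]
      exact isHomogeneous_X _ _
  · rw [map_sum, Fin.sum_univ_succAbove _ i0]
    simp only [map_mul, aeval_X, algHom_C, hs0, hsj, algebraMap_eq]
    rw [Finset.mul_sum, ← Finset.sum_add_distrib]
    apply Finset.sum_eq_zero
    intro j _
    have : a i0 * (-(a i0)⁻¹ * a (i0.succAbove j)) = - a (i0.succAbove j) := by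
      field_simp
    have h4 : (C (a i0) * C (-(a i0)⁻¹) * C (a (i0.succAbove j)) : MvPolynomial (Fin n) K) =
        - C (a (i0.succAbove j)) := by
      rw [← C_mul, ← C_mul, ← C_neg, mul_assoc, this]
    linear_combination (X j) * h4
  · intro B _ _ ξ hξ
    refine ⟨fun j => ξ (i0.succAbove j), ?_⟩
    intro i
    rcases Fin.eq_self_or_eq_succAbove i0 i with rfl | ⟨j, rfl⟩
    · rw [map_sum, Fin.sum_univ_succAbove _ i] at hξ
      simp only [map_mul, aeval_X, MvPolynomial.aeval_C] at hξ
      rw [hs0, map_sum]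
      simp only [map_mul, aeval_X, MvPolynomial.aeval_C]
      have h1 : algebraMap K B (a i)⁻¹ * algebraMap K B (a i) = 1 := by
        rw [← map_mul, inv_mul_cancel₀ hi0, map_one]
      have h2 : ∑ j, algebraMap K B (a (i.succAbove j)) * ξ (i.succAbove j) =
          - (algebraMap K B (a i) * ξ i) := by
        rw [eq_neg_iff_add_eq_zero, add_comm]; exact hξ
      have h3 : ∑ j, algebraMap K B (-(a i)⁻¹) * algebraMap K B (a (i.succAbove j)) *
          ξ (i.succAbove j) = algebraMap K B (-(a i)⁻¹) *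
          ∑ j, algebraMap K B (a (i.succAbove j)) * ξ (i.succAbove j) := by
        rw [Finset.mul_sum]
        exact Finset.sum_congr rfl fun j _ => by ring
      rw [h3, h2, map_neg]
      linear_combination (ξ i) * h1
    · rw [hsj, aeval_X]

end

end Pool.Agent.R4L
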