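import Pool.Agent.Lib.MP_4ed7e0_lc_LD.Smooth

/-!
Low degree case of (R4): forms of degree at most 3.
-/

set_option autoImplicit false

namespace Pool.Agent.R4L

open MvPolynomial Pool.Agent.R4A

noncomputable section

universe u v

variable {K : Type u} [Field K]

theorem ne_zero_of_aeval {A : Type v} [CommRing A] [Algebra K A] {n : ℕ}
    {G : MvPolynomial (Fin n) K} {x : Fin n → A} (h : aeval x G ≠ 0) : G ≠ 0 := by
  rintro rfl
  exact h (map_zero _)

/-- completing a point in the direction of the first coordinate -/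
theorem cone_pt [Infinite K] {n : ℕ} (G : MvPolynomial (Fin (n + 1)) K) (x' : Fin n → K) (k : ℕ)
    (hk : aeval x' (cf k G) ≠ 0) :
    ∃ x0 : K, aeval (Fin.cons x0 x' : Fin (n + 1) → K) G ≠ 0 := by
  by_contra hcon
  push Not at hcon
  apply hk
  have h1 : (finSuccEquiv K n G).map (aeval x' : MvPolynomial (Fin n) K →ₐ[K] K).toRingHom = 0 := by
    apply Polynomial.funext
    intro r
    rw [Polynomial.eval_map, ← aeval_cons, hcon, Polynomial.eval_zero]
  have h2 := congrArg (fun p : Polynomial K => p.coeff k) h1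
  simp only [Polynomial.coeff_map, Polynomial.coeff_zero] at h2
  exact h2

theorem exists_coeff {A : Type v} [CommRing A] [Algebra K A] {n : ℕ}
    (G : MvPolynomial (Fin (n + 1)) K) (y : A) (x' : Fin n → A)
    (h : aeval (Fin.cons y x' : Fin (n + 1) → A) G ≠ 0) : ∃ k, aeval x' (cf k G) ≠ 0 := by
  by_contra hcon
  push Not at hcon
  apply h
  rw [aeval_cons_sum G (Nat.lt_succ_self _)]
  apply Finset.sum_eq_zero
  intro i _
  rw [hcon, zero_mul]

/-- coordinates in which the first basis vector is a specialization of the point -/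
theorem wlog_coord {L : Type u} [Field L] [Algebra K L] {O : ValuationSubring L} (h : IsRat K O)
    {n : ℕ} (ξ : Fin (n + 1) → L) (hξ : ξ ≠ 0) :
    ∃ (s : Fin (n + 1) → MvPolynomial (Fin (n + 1)) K) (η0 : L) (η : Fin n → L),
      (∀ i, (s i).IsHomogeneous 1) ∧
      (∀ i, aeval (Fin.cons η0 η : Fin (n + 1) → L) (s i) = ξ i) ∧
      ∀ (H : MvPolynomial (Fin (n + 1)) K) (e : ℕ), H.IsHomogeneous e →
        aeval (Fin.cons η0 η : Fin (n + 1) → L) H = 0 →
        aeval (Fin.cons 1 0 : Fin (n + 1) → K) H = 0 := by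
  obtain ⟨P, hP, hspec⟩ := spec h ξ hξ
  obtain ⟨s, s', hs, hs', hP', hss⟩ := coord hP
  have e1 : (Fin.cons (aeval ξ (s' 0)) (fun j => aeval ξ (s' j.succ)) : Fin (n + 1) → L) =
      fun j => aeval ξ (s' j) := by
    funext j
    refine Fin.cases ?_ (fun k => ?_) j <;> simp
  refine ⟨s, aeval ξ (s' 0), fun j => aeval ξ (s' j.succ), hs, ?_, ?_⟩
  · intro i
    rw [e1]
    exact hss L ξ i
  · intro H e hH hη
    rw [e1, ← aeval_sub] at hη
    have h1 := hspec _ e (hom_sub hs' hH) hη
    rw [aeval_sub] at h1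
    have e2 : (Fin.cons 1 0 : Fin (n + 1) → K) = fun i => aeval P (s' i) := by
      funext i
      rw [hP']
      refine Fin.cases ?_ (fun k => ?_) i <;> simp
    rw [e2]
    exact h1

theorem top_zero {n e : ℕ} {H : MvPolynomial (Fin (n + 1)) K} (hH : H.IsHomogeneous e)
    (h0 : aeval (Fin.cons 1 0 : Fin (n + 1) → K) H = 0) : cf e H = 0 := by
  rw [aeval_cons_sum H (Nat.lt_succ_of_le (cf_natDegree_le hH)), Finset.sum_range_succ] at h0
  have h1 : ∀ i ∈ Finset.range e, aeval (0 : Fin n → K) (cf i H) * (1 : K) ^ i = 0 := by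
    intro i hi
    rw [Finset.mem_range] at hi
    have h2 := hom_smul (cf_hom hH (show i + (e - i) = e by omega)) (0 : K) (0 : Fin n → K)
    rw [zero_pow (by omega), zero_mul] at h2
    have h3 : (fun i => (0 : K) * (0 : Fin n → K) i) = 0 := by
      funext i; simp
    rw [h3] at h2
    rw [h2, zero_mul]
  rw [Finset.sum_eq_zero h1, zero_add, one_pow, mul_one] at h0
  have h4 : (cf e H).IsHomogeneous 0 := cf_hom hH (by omega)
  rw [← totalDegree_zero_iff_isHomogeneous, totalDegree_eq_zero_iff_eq_C] at h4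
  rw [h4, MvPolynomial.aeval_C] at h0
  rw [h4]
  have h5 : coeff 0 (cf e H) = 0 := h0
  rw [h5, C_0]

/-- the smooth case -/
theorem smooth_case (hK : Large K) {n e : ℕ} {H G : MvPolynomial (Fin (n + 1)) K}
    (hH : H.IsHomogeneous (e + 1)) (hirr : Irreducible H) (hHG : ¬ H ∣ G)
    (h0 : aeval (Fin.cons 1 0 : Fin (n + 1) → K) H = 0) (hl : cf e H ≠ 0) :
    ∃ x : Fin (n + 1) → K, aeval x H = 0 ∧ aeval x G ≠ 0 := by
  have : Infinite K := large_inf hK
  obtain ⟨a, ha⟩ := lin_form (cf_hom hH (rfl : e + 1 = e + 1))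
  have hex : ∃ j, a j ≠ 0 := by
    by_contra hcon
    push Not at hcon
    apply hl
    rw [ha]
    simp [hcon]
  obtain ⟨j, hj⟩ := hex
  let σ : Equiv.Perm (Fin (n + 1)) := Equiv.swap 0 j.succ
  have hσ0 : σ 0 = j.succ := Equiv.swap_apply_left _ _
  have hσj : σ j.succ = 0 := Equiv.swap_apply_right _ _
  have hσk : ∀ k : Fin n, k ≠ j → σ k.succ = k.succ := by
    intro k hk
    apply Equiv.swap_apply_of_ne_of_ne
    · exact Fin.succ_ne_zero k
    · intro h
      exact hk (Fin.succ_injective _ h)
  have hpt : ∀ r : K, (Fin.cons r (Pi.single j 1 : Fin n → K) : Fin (n + 1) → K) ∘ σ =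
      Fin.cons 1 (fun i => r * (Pi.single j 1 : Fin n → K) i) := by
    intro r
    funext i
    refine Fin.cases ?_ (fun k => ?_) i
    · simp [hσ0]
    · rcases eq_or_ne k j with rfl | hk
      · simp [hσj]
      · simp [hσk k hk, Pi.single_eq_of_ne hk]
  have hval : ∀ r : K, aeval (Fin.cons r (Pi.single j 1 : Fin n → K) : Fin (n + 1) → K)
      (rename σ H) = ∑ i ∈ Finset.range (e + 2),
        aeval (Pi.single j 1 : Fin n → K) (cf i H) * r ^ (e + 1 - i) := by
    intro r
    rw [aeval_rename, hpt, aeval_cons_sum H (Nat.lt_succ_of_le (cf_natDegree_le hH))]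
    apply Finset.sum_congr rfl
    intro i hi
    rw [Finset.mem_range] at hi
    rw [hom_smul (cf_hom hH (show i + (e + 1 - i) = e + 1 by omega)), one_pow, mul_one, mul_comm]
  have hpoly : (finSuccEquiv K n (rename σ H)).map (eval (Pi.single j 1 : Fin n → K)) =
      ∑ i ∈ Finset.range (e + 2), Polynomial.C (aeval (Pi.single j 1 : Fin n → K) (cf i H)) *
        Polynomial.X ^ (e + 1 - i) := by
    apply Polynomial.funext
    intro r
    rw [← eval_eq_eval_mv_eval']
    have h1 := hval r
    have h2 : aeval (Fin.cons r (Pi.single j 1 : Fin n → K) : Fin (n + 1) → K)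
      (rename σ H) = eval (Fin.cons r (Pi.single j 1 : Fin n → K) : Fin (n + 1) → K)
      (rename σ H) := rfl
    rw [← h2, h1, Polynomial.eval_finsetSum]
    apply Finset.sum_congr rfl
    intro i _
    simp
  have hbj : aeval (Pi.single j 1 : Fin n → K) (cf e H) = a j := by
    rw [ha, map_sum, Finset.sum_eq_single j]
    · simp
    · intro b _ hb
      simp [Pi.single_eq_of_ne hb]
    · intro h
      exact absurd (Finset.mem_univ _) h
  obtain ⟨x, hx, hx'⟩ := smooth0 hK (rename σ H) (rename σ G)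
    ((MulEquiv.irreducible_iff (renameEquiv K σ)).2 hirr)
    (fun hd => hHG ((map_dvd_iff (renameEquiv K σ)).1 hd)) 0 (Pi.single j 1) (by
      rw [aeval_rename, hpt]
      have : (Fin.cons 1 (fun i => (0 : K) * (Pi.single j 1 : Fin n → K) i) :
          Fin (n + 1) → K) = Fin.cons 1 0 := by
        congr 1
        funext i
        simp
      rw [this]
      exact h0) (by
      rw [hpoly, ← Polynomial.coeff_zero_eq_eval_zero, Polynomial.coeff_derivative]
      rw [Polynomial.finsetSum_coeff, Finset.sum_eq_single e]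
      · rw [Polynomial.coeff_C_mul_X_pow, if_pos (by omega), hbj]
        simpa using hj
      · intro b hb hbe
        rw [Polynomial.coeff_C_mul_X_pow, if_neg]
        rw [Finset.mem_range] at hb
        omega
      · intro h
        exact absurd (Finset.mem_range.2 (by omega)) h)
  rw [aeval_rename] at hx hx'
  exact ⟨x ∘ σ, hx, hx'⟩

/-- a form of degree one in the first variable -/
theorem ratio_case [Infinite K] {n : ℕ} {H G : MvPolynomial (Fin (n + 1)) K} (hirr : Irreducible H)
    (hHG : ¬ H ∣ G) (hd : (finSuccEquiv K n H).natDegree = 1) :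
    ∃ x : Fin (n + 1) → K, aeval x H = 0 ∧ aeval x G ≠ 0 := by
  have hf : Irreducible (finSuccEquiv K n H) := (MulEquiv.irreducible_iff _).2 hirr
  have hfg : ¬ finSuccEquiv K n H ∣ finSuccEquiv K n G := by
    intro h
    exact hHG ((map_dvd_iff (finSuccEquiv K n)).1 h)
  obtain ⟨A, B, D, hD, hAB⟩ := elim _ _ hf (by omega) hfg
  have hq : cf 1 H ≠ 0 := by
    intro h0
    have : (finSuccEquiv K n H).leadingCoeff = 0 := by
      rw [Polynomial.leadingCoeff, hd]
      exact h0
    rw [Polynomial.leadingCoeff_eq_zero] at this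
    rw [this, Polynomial.natDegree_zero] at hd
    exact absurd hd (by norm_num)
  obtain ⟨x', hx'⟩ := exists_ne (mul_ne_zero hq hD)
  rw [map_mul] at hx'
  have hq' := left_ne_zero_of_mul hx'
  have hD' := right_ne_zero_of_mul hx'
  refine ⟨Fin.cons (-(aeval x' (cf 0 H)) / aeval x' (cf 1 H)) x', ?_⟩
  have hH0 : aeval (Fin.cons (-(aeval x' (cf 0 H)) / aeval x' (cf 1 H)) x' : Fin (n + 1) → K) H =
      0 := by
    rw [aeval_cons_sum H (show (finSuccEquiv K n H).natDegree < 2 by omega),
      Finset.sum_range_succ, Finset.sum_range_one]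
    field_simp
    ring
  refine ⟨hH0, ?_⟩
  intro hG0
  apply hD'
  have h6 := congrArg (fun p : Polynomial (MvPolynomial (Fin n) K) =>
    p.eval₂ (aeval x' : MvPolynomial (Fin n) K →ₐ[K] K).toRingHom
      (-(aeval x' (cf 0 H)) / aeval x' (cf 1 H))) hAB
  simp only [Polynomial.eval₂_add, Polynomial.eval₂_mul, Polynomial.eval₂_C] at h6
  rw [← aeval_cons, ← aeval_cons, hH0, hG0, mul_zero, mul_zero, add_zero] at h6
  exact h6.symm

/-- forms of degree at most three -/
theorem cubic (hK : Large K) {L : Type u} [Field L] [Algebra K L] {O : ValuationSubring L}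
    (h : IsRat K O) : ∀ (n d : ℕ) (F G : MvPolynomial (Fin n) K) (ξ : Fin n → L), d ≤ 3 →
      F.IsHomogeneous d → aeval ξ F = 0 → aeval ξ G ≠ 0 →
      ∃ x : Fin n → K, aeval x F = 0 ∧ aeval x G ≠ 0 := by
  have : Infinite K := large_inf hK
  intro n
  induction n with
  | zero =>
    intro d F G ξ _ _ hξF hξG
    have : ξ = 0 := Subsingleton.elim _ _
    subst this
    exact ⟨0, aeval_zero_pt hξF, aeval_zero_pt_ne hξG⟩
  | succ n ih =>
    intro d F G ξ hd hF hξF hξG
    by_cases hξ : ξ = 0
    · subst hξ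
      exact ⟨0, aeval_zero_pt hξF, aeval_zero_pt_ne hξG⟩
    obtain ⟨s, η0, η, hs, hη, hspec⟩ := wlog_coord h ξ hξ
    have hsub : ∀ Q : MvPolynomial (Fin (n + 1)) K,
        aeval (Fin.cons η0 η : Fin (n + 1) → L) (aeval s Q) = aeval ξ Q := by
      intro Q
      rw [aeval_sub]
      congr 2
      funext i
      exact hη i
    suffices hsuff : ∃ y : Fin (n + 1) → K, aeval y (aeval s F) = 0 ∧ aeval y (aeval s G) ≠ 0 by
      obtain ⟨y, hy, hy'⟩ := hsuff
      rw [aeval_sub] at hy hy'
      exact ⟨_, hy, hy'⟩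
    rw [← hsub] at hξF hξG
    have hF' := hom_sub hs hF
    generalize (aeval s F : MvPolynomial (Fin (n + 1)) K) = F' at hF' hξF ⊢
    generalize (aeval s G : MvPolynomial (Fin (n + 1)) K) = G' at hξG ⊢
    by_cases hF0 : F' = 0
    · obtain ⟨x, hx⟩ := exists_ne (ne_zero_of_aeval hξG)
      exact ⟨x, by rw [hF0, map_zero], hx⟩
    obtain ⟨H, e, hirr, hHF, hed, hH, hξH⟩ := exists_factor hF' hF0 _ hξF
    suffices hsuff : ∃ y : Fin (n + 1) → K, aeval y H = 0 ∧ aeval y G' ≠ 0 by
      obtain ⟨y, hy, hy'⟩ := hsuff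
      obtain ⟨Q, rfl⟩ := hHF
      exact ⟨y, by rw [map_mul, hy, zero_mul], hy'⟩
    have hHG : ¬ H ∣ G' := by
      rintro ⟨Q, rfl⟩
      rw [map_mul, hξH, zero_mul] at hξG
      exact hξG rfl
    have hP := hspec H e hH hξH
    have htop := top_zero hH hP
    have hdeg := cf_natDegree_le hH
    have hne : finSuccEquiv K n H ≠ 0 := by
      rw [Ne, map_eq_zero_iff _ (finSuccEquiv K n).injective]
      exact hirr.ne_zero
    have hlt : ∀ m, (finSuccEquiv K n H).natDegree ≤ m → cf m H = 0 →
        (finSuccEquiv K n H).natDegree < m ∨ m = 0 := by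
      intro m hm hm0
      rcases Nat.lt_or_ge (finSuccEquiv K n H).natDegree m with h1 | h1
      · exact Or.inl h1
      · exfalso
        have h2 : (finSuccEquiv K n H).natDegree = m := le_antisymm hm h1
        apply hne
        rw [← Polynomial.leadingCoeff_eq_zero, Polynomial.leadingCoeff, h2]
        exact hm0
    have hlt' : (finSuccEquiv K n H).natDegree < e := by
      rcases hlt e hdeg htop with h1 | h1
      · exact h1
      · exfalso
        subst h1
        apply hne
        rw [← Polynomial.leadingCoeff_eq_zero, Polynomial.leadingCoeff,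
          Nat.le_zero.1 hdeg]
        exact htop
    obtain ⟨e', rfl⟩ : ∃ e', e = e' + 1 := ⟨e - 1, by omega⟩
    by_cases hl : cf e' H ≠ 0
    · exact smooth_case hK hH hirr hHG hP hl
    · push Not at hl
      by_cases hd0 : (finSuccEquiv K n H).natDegree = 0
      · -- a cone
        have hC : finSuccEquiv K n H = Polynomial.C (cf 0 H) :=
          Polynomial.eq_C_of_natDegree_eq_zero hd0
        have hval : ∀ (B : Type u) [CommRing B] [Algebra K B] (y0 : B) (y : Fin n → B),
            aeval (Fin.cons y0 y : Fin (n + 1) → B) H = aeval y (cf 0 H) := by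
          intro B _ _ y0 y
          rw [aeval_cons, hC, Polynomial.eval₂_C]
          rfl
        rw [hval] at hξH
        obtain ⟨k, hk⟩ := exists_coeff G' η0 η hξG
        obtain ⟨x', hx, hx'⟩ := ih (e' + 1) (cf 0 H) (cf k G') η (by omega)
          (cf_hom hH (by omega)) hξH hk
        obtain ⟨x0, hx0⟩ := cone_pt G' x' k hx'
        exact ⟨Fin.cons x0 x', by rw [hval, hx], hx0⟩
      · -- degree one in the first variable
        apply ratio_case hirr hHG
        rcases hlt e' (by omega) hl with h1 | h1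
        · omega
        · omega

end

end Pool.Agent.R4L
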