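import Pool.Agent.Lib.MP_4ed7e0_lc_LD.Base

/-!
Low degree case of (R4): factors of homogeneous polynomials, elimination, smooth points.
-/

set_option autoImplicit false

namespace Pool.Agent.R4L

open MvPolynomial Pool.Agent.R4A

noncomputable section

universe u v

variable {K : Type u} [Field K]

/-- `F(t X)` -/
def Φ {n : ℕ} : MvPolynomial (Fin n) K →ₐ[K] Polynomial (MvPolynomial (Fin n) K) :=
  aeval (fun i => Polynomial.X * Polynomial.C (X i))

theorem Φ_hom {n d : ℕ} {F : MvPolynomial (Fin n) K} (hF : F.IsHomogeneous d) :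
    Φ F = Polynomial.X ^ d * Polynomial.C F := by
  have h1 : ∀ H : MvPolynomial (Fin n) K,
      aeval (fun i => (Polynomial.C (X i) : Polynomial (MvPolynomial (Fin n) K))) H =
        Polynomial.C H := by
    intro H
    induction H using MvPolynomial.induction_on with
    | C a => rw [MvPolynomial.aeval_C]; rfl
    | add p q hp hq => rw [map_add, hp, hq, Polynomial.C_add]
    | mul_X p i hp => rw [map_mul, hp, aeval_X, Polynomial.C_mul]
  unfold Φ
  rw [hom_smul hF, h1]

theorem Φ_coeff {n : ℕ} (F : MvPolynomial (Fin n) K) (k : ℕ) :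
    (Φ F).coeff k = homogeneousComponent k F := by
  have h1 : Φ F = ∑ i ∈ Finset.range (F.totalDegree + 1),
      Polynomial.X ^ i * Polynomial.C (homogeneousComponent i F) := by
    conv_lhs => rw [← sum_homogeneousComponent F]
    rw [map_sum]
    exact Finset.sum_congr rfl fun i _ => Φ_hom (homogeneousComponent_isHomogeneous i F)
  rw [h1, Polynomial.finsetSum_coeff]
  have h2 : ∀ i, (Polynomial.X ^ i * Polynomial.C (homogeneousComponent i F) :
      Polynomial (MvPolynomial (Fin n) K)).coeff k =
        if k = i then homogeneousComponent i F else 0 := by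
    intro i
    rw [Polynomial.X_pow_mul_C, Polynomial.coeff_C_mul_X_pow]
  simp_rw [h2]
  rw [Finset.sum_ite_eq]
  split_ifs with h
  · rfl
  · symm
    apply homogeneousComponent_eq_zero
    simpa using h

theorem hom_of_dvd {n d : ℕ} {F H : MvPolynomial (Fin n) K} (hF : F.IsHomogeneous d) (h0 : F ≠ 0)
    (hH : H ∣ F) : ∃ e ≤ d, H.IsHomogeneous e := by
  obtain ⟨b, rfl⟩ := hH
  have hH0 : H ≠ 0 := left_ne_zero_of_mul h0
  have hb0 : b ≠ 0 := right_ne_zero_of_mul h0
  have hne : ∀ G : MvPolynomial (Fin n) K, G ≠ 0 → Φ G ≠ 0 := by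
    intro G hG hcon
    apply hG
    rw [← sum_homogeneousComponent G]
    apply Finset.sum_eq_zero
    intro i _
    rw [← Φ_coeff, hcon, Polynomial.coeff_zero]
  have h1 : Φ H * Φ b = Polynomial.X ^ d * Polynomial.C (H * b) := by
    rw [← map_mul, Φ_hom hF]
  have h2 : (Polynomial.X ^ d * Polynomial.C (H * b) :
      Polynomial (MvPolynomial (Fin n) K)).natDegree = d := by
    rw [Polynomial.X_pow_mul_C, Polynomial.natDegree_C_mul_X_pow _ _ h0]
  have h3 : (Polynomial.X ^ d * Polynomial.C (H * b) :
      Polynomial (MvPolynomial (Fin n) K)).natTrailingDegree = d := by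
    rw [Polynomial.X_pow_mul_C, Polynomial.C_mul_X_pow_eq_monomial,
      Polynomial.natTrailingDegree_monomial h0]
  have h4 := Polynomial.natDegree_mul (hne H hH0) (hne b hb0)
  have h5 := Polynomial.natTrailingDegree_mul (hne H hH0) (hne b hb0)
  rw [h1, h2] at h4
  rw [h1, h3] at h5
  have h6 := Polynomial.natTrailingDegree_le_natDegree (Φ H)
  have h7 := Polynomial.natTrailingDegree_le_natDegree (Φ b)
  refine ⟨(Φ H).natDegree, by omega, ?_⟩
  have h8 : H = homogeneousComponent (Φ H).natDegree H := by
    conv_lhs => rw [← sum_homogeneousComponent H]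
    apply Finset.sum_eq_single_of_mem
    · rw [Finset.mem_range]
      by_contra hcon
      have h9 : (Φ H).coeff (Φ H).natDegree = 0 := by
        rw [Φ_coeff]
        apply homogeneousComponent_eq_zero
        omega
      exact hne H hH0 (Polynomial.leadingCoeff_eq_zero.1 h9)
    · intro k _ hk
      rw [← Φ_coeff]
      rcases lt_or_gt_of_ne hk with h | h
      · apply Polynomial.coeff_eq_zero_of_lt_natTrailingDegree
        omega
      · exact Polynomial.coeff_eq_zero_of_natDegree_lt h
  have h10 := homogeneousComponent_isHomogeneous (Φ H).natDegree H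
  rwa [← h8] at h10

/-- an irreducible homogeneous factor vanishing at a given point -/
theorem exists_factor {L : Type u} [Field L] [Algebra K L] {n d : ℕ}
    {F : MvPolynomial (Fin n) K} (hF : F.IsHomogeneous d) (h0 : F ≠ 0) (ξ : Fin n → L)
    (hξ : aeval ξ F = 0) :
    ∃ (H : MvPolynomial (Fin n) K) (e : ℕ), Irreducible H ∧ H ∣ F ∧ e ≤ d ∧ H.IsHomogeneous e ∧
      aeval ξ H = 0 := by
  classical
  obtain ⟨u, hu⟩ := UniqueFactorizationMonoid.factors_prod h0
  have h1 : aeval ξ (UniqueFactorizationMonoid.factors F).prod = 0 := by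
    have h2 : aeval ξ (UniqueFactorizationMonoid.factors F).prod *
        aeval ξ (u : MvPolynomial (Fin n) K) = 0 := by
      rw [← map_mul, hu, hξ]
    rcases mul_eq_zero.1 h2 with h | h
    · exact h
    · exfalso
      have h3 : IsUnit (aeval ξ (u : MvPolynomial (Fin n) K)) := u.isUnit.map (aeval ξ)
      rw [h] at h3
      exact not_isUnit_zero h3
  rw [map_multiset_prod, Multiset.prod_eq_zero_iff, Multiset.mem_map] at h1
  obtain ⟨H, hH, hH0⟩ := h1
  have hd := UniqueFactorizationMonoid.dvd_of_mem_factors hH
  obtain ⟨e, he, hHe⟩ := hom_of_dvd hF h0 hd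
  exact ⟨H, e, UniqueFactorizationMonoid.irreducible_of_factor H hH, hd, he, hHe, hH0⟩

open Polynomial in
/-- elimination -/
theorem elim {R : Type u} [CommRing R] [IsDomain R] [UniqueFactorizationMonoid R] (f g : R[X])
    (hf : Irreducible f) (hd : f.natDegree ≠ 0) (hfg : ¬ f ∣ g) :
    ∃ (A B : R[X]) (D : R), D ≠ 0 ∧ A * f + B * g = Polynomial.C D := by
  have hprim : f.IsPrimitive := hf.isPrimitive hd
  have hirr : Irreducible (f.map (algebraMap R (FractionRing R))) :=
    hprim.irreducible_iff_irreducible_map_fraction_map.1 hf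
  have hnd : ¬ f.map (algebraMap R (FractionRing R)) ∣ g.map (algebraMap R (FractionRing R)) :=
    fun h => hfg (hprim.dvd_of_fraction_map_dvd_fraction_map h)
  have hcop : IsCoprime (f.map (algebraMap R (FractionRing R)))
      (g.map (algebraMap R (FractionRing R))) :=
    (EuclideanDomain.dvd_or_coprime _ _ hirr).resolve_left hnd
  obtain ⟨u, w, huw⟩ := hcop
  obtain ⟨c, c0, hc⟩ := IsLocalization.integerNormalization_spec (nonZeroDivisors R) u
  obtain ⟨e, e0, he⟩ := IsLocalization.integerNormalization_spec (nonZeroDivisors R) w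
  rw [Algebra.smul_def, Polynomial.algebraMap_apply] at hc he
  refine ⟨Polynomial.C e * IsLocalization.integerNormalization (nonZeroDivisors R) u,
    Polynomial.C c * IsLocalization.integerNormalization (nonZeroDivisors R) w, c * e,
    mul_ne_zero (nonZeroDivisors.ne_zero c0) (nonZeroDivisors.ne_zero e0), ?_⟩
  apply Polynomial.map_injective (algebraMap R (FractionRing R)) (IsFractionRing.injective _ _)
  rw [Polynomial.map_add, Polynomial.map_mul, Polynomial.map_mul, Polynomial.map_mul,
    Polynomial.map_mul, hc, he, Polynomial.map_C, Polynomial.map_C, Polynomial.map_C, map_mul,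
    Polynomial.C_mul]
  linear_combination (Polynomial.C (algebraMap R (FractionRing R) c) *
    Polynomial.C (algebraMap R (FractionRing R) e)) * huw

theorem laurent_algebraMap (c : K) : algebraMap K (LaurentSeries K) c = HahnSeries.C c := by
  rw [HahnSeries.algebraMap_apply', PowerSeries.algebraMap_apply]
  exact HahnSeries.ofPowerSeries_C c

/-- large fields are infinite -/
theorem large_inf (hK : Large K) : Infinite K := by
  by_contra hcon
  rw [not_infinite_iff_finite] at hcon
  have := Fintype.ofFinite K
  let p : MvPolynomial (Fin 2) K := (∏ a : K, (X 0 - C a)) * X 1 - 1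
  obtain ⟨x, hx⟩ := hK 2 {p} (by
    have hne : ∀ a : K, (HahnSeries.single (1 : ℤ) (1 : K) : LaurentSeries K) -
        algebraMap K (LaurentSeries K) a ≠ 0 := by
      intro a ha
      have h1 := congrArg (fun z : LaurentSeries K => z.coeff 1) ha
      have h2 : (algebraMap K (LaurentSeries K) a).coeff 1 = 0 := by
        rw [laurent_algebraMap]
        simp
      simp only [HahnSeries.coeff_sub, h2, sub_zero, HahnSeries.coeff_single_same,
        HahnSeries.coeff_zero] at h1
      exact one_ne_zero h1
    have hprod : ∏ a : K, ((HahnSeries.single (1 : ℤ) (1 : K) : LaurentSeries K) -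
        algebraMap K (LaurentSeries K) a) ≠ 0 := Finset.prod_ne_zero_iff.2 fun a _ => hne a
    refine ⟨![HahnSeries.single (1 : ℤ) (1 : K), (∏ a : K,
      ((HahnSeries.single (1 : ℤ) (1 : K) : LaurentSeries K) -
        algebraMap K (LaurentSeries K) a))⁻¹], ?_⟩
    intro q hq
    rw [Finset.mem_singleton] at hq
    subst hq
    simp only [p, map_sub, map_mul, map_prod, aeval_X, MvPolynomial.aeval_C, map_one]
    simp only [Matrix.cons_val_zero, Matrix.cons_val_one]
    rw [mul_inv_cancel₀ hprod, sub_self])
  have h1 := hx p (Finset.mem_singleton_self _)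
  simp only [p, map_sub, map_mul, map_prod, MvPolynomial.eval_X, MvPolynomial.eval_C,
    map_one] at h1
  have h2 : ∏ a : K, (x 0 - a) = 0 := Finset.prod_eq_zero (Finset.mem_univ (x 0)) (sub_self _)
  rw [h2, zero_mul, zero_sub, neg_eq_zero] at h1
  exact one_ne_zero h1

/-- a nonzero polynomial does not vanish everywhere -/
theorem exists_ne [Infinite K] {n : ℕ} {G : MvPolynomial (Fin n) K} (hG : G ≠ 0) :
    ∃ x : Fin n → K, aeval x G ≠ 0 := by
  by_contra hcon
  push Not at hcon
  apply hG
  apply MvPolynomial.funext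
  intro x
  rw [map_zero]
  exact hcon x

/-- points over `K[[t]]` give points over `K` -/
theorem large_open (hK : Large K) {n : ℕ} (F G : MvPolynomial (Fin n) K)
    (h : ∃ x : Fin n → PowerSeries K, aeval x F = 0 ∧ aeval x G ≠ 0) :
    ∃ x : Fin n → K, aeval x F = 0 ∧ aeval x G ≠ 0 := by
  classical
  obtain ⟨x, hF, hG⟩ := h
  let ι : PowerSeries K →ₐ[K] LaurentSeries K :=
    { HahnSeries.ofPowerSeries ℤ K with
      commutes' := fun c => by
        show HahnSeries.ofPowerSeries ℤ K (algebraMap K (PowerSeries K) c) = _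
        rw [laurent_algebraMap, PowerSeries.algebraMap_apply]
        exact HahnSeries.ofPowerSeries_C c }
  have hι : Function.Injective ι := HahnSeries.ofPowerSeries_injective (Γ := ℤ) (R := K)
  let F' : MvPolynomial (Fin (n + 1)) K := rename Fin.succ F
  let G' : MvPolynomial (Fin (n + 1)) K := rename Fin.succ G * X 0 - 1
  have hG' : ι (aeval x G) ≠ 0 := by
    rw [Ne, map_eq_zero_iff ι hι]
    exact hG
  obtain ⟨y, hy⟩ := hK (n + 1) {F', G'} (by
    refine ⟨Fin.cons (ι (aeval x G))⁻¹ (fun i => ι (x i)), ?_⟩
    intro q hq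
    rw [Finset.mem_insert, Finset.mem_singleton] at hq
    rcases hq with rfl | rfl
    · simp only [F', aeval_rename]
      have : ((Fin.cons (ι (aeval x G))⁻¹ (fun i => ι (x i)) : Fin (n + 1) → LaurentSeries K) ∘
          Fin.succ) = fun i => ι (x i) := by
        funext i; simp
      rw [this, ← comp_aeval_apply x ι, hF, map_zero]
    · simp only [G', map_sub, map_mul, aeval_rename, aeval_X, map_one]
      have : ((Fin.cons (ι (aeval x G))⁻¹ (fun i => ι (x i)) : Fin (n + 1) → LaurentSeries K) ∘
          Fin.succ) = fun i => ι (x i) := by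
        funext i; simp
      rw [this, ← comp_aeval_apply x ι]
      simp only [Fin.cons_zero]
      rw [mul_inv_cancel₀ hG', sub_self])
  have h1 := hy F' (by simp)
  have h2 := hy G' (by simp)
  refine ⟨y ∘ Fin.succ, ?_, ?_⟩
  · simp only [F', eval_rename] at h1
    exact h1
  · simp only [G', map_sub, map_mul, eval_rename, MvPolynomial.eval_X, map_one] at h2
    intro h3
    have h4 : eval (y ∘ Fin.succ) G = 0 := h3
    rw [h4, zero_mul, zero_sub, neg_eq_zero] at h2
    exact one_ne_zero h2

end

end Pool.Agent.R4L
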