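import Pool.Agent.Lib.MP_4ed7e0_lc_LD.Quad

/-!
Low degree case of (R4): the main theorem.
-/

set_option autoImplicit false

namespace Pool.Agent.R4L

open MvPolynomial Pool.Agent.R4A

noncomputable section

universe u

theorem two_le {r : ℕ} (a : Fin r → ℕ) (i j : Fin r) (hij : i ≠ j) :
    (a i - 1) + (a j - 1) ≤ ∑ k, (a k - 1) := by
  rw [← Finset.sum_pair (f := fun k => a k - 1) hij]
  exact Finset.sum_le_sum_of_subset (Finset.subset_univ _)

theorem three_le {r : ℕ} (a : Fin r → ℕ) (i j k : Fin r) (hij : i ≠ j) (hik : i ≠ k)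
    (hjk : j ≠ k) : (a i - 1) + (a j - 1) + (a k - 1) ≤ ∑ l, (a l - 1) := by
  have h1 : (a i - 1) + (a j - 1) + (a k - 1) = ∑ l ∈ {i, j, k}, (a l - 1) := by
    rw [Finset.sum_insert (by simp [hij, hik]), Finset.sum_pair hjk, add_assoc]
  rw [h1]
  exact Finset.sum_le_sum_of_subset (Finset.subset_univ _)

theorem degs {r : ℕ} (a : Fin r → ℕ) (h : ∑ i, (a i - 1) ≤ 2) :
    (∀ j, a j ≤ 1) ∨ (∃ i, a i ≤ 3 ∧ ∀ j, j ≠ i → a j ≤ 1) ∨
      ∃ i i', a i ≤ 2 ∧ a i' ≤ 2 ∧ ∀ j, j ≠ i → j ≠ i' → a j ≤ 1 := by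
  by_cases h1 : ∀ j, a j ≤ 1
  · exact Or.inl h1
  push Not at h1
  obtain ⟨i, hi⟩ := h1
  have hi3 : a i ≤ 3 := by
    have := Finset.single_le_sum (f := fun k => a k - 1) (fun _ _ => Nat.zero_le _)
      (Finset.mem_univ i)
    omega
  right
  by_cases h2 : ∀ j, j ≠ i → a j ≤ 1
  · exact Or.inl ⟨i, hi3, h2⟩
  push Not at h2
  obtain ⟨i', hii, hi'⟩ := h2
  have h3 := two_le a i i' hii.symm
  right
  refine ⟨i, i', by omega, by omega, ?_⟩
  intro j hji hji'
  have h4 := three_le a i i' j hii.symm hji.symm hji'.symm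
  omega

theorem main {K L : Type u} [Field K] [Field L]
    [Algebra K L] (hL : Large K) {O : ValuationSubring L} (hO : IsRat K O) {n r : ℕ}
    (f : Fin r → MvPolynomial (Fin n) K) (hf : ∑ i, ((f i).totalDegree - 1) ≤ 2)
    (G : MvPolynomial (Fin n) K) (ξ : Fin n → L) (hξ : ∀ i, aeval ξ (f i) = 0)
    (hG : aeval ξ G ≠ 0) : ∃ x : Fin n → K, (∀ i, aeval x (f i) = 0) ∧ aeval x G ≠ 0 := by
  classical
  have base1 : ∀ (n : ℕ) (F : Fin 1 → MvPolynomial (Fin n) K) (G : MvPolynomial (Fin n) K)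
      (ξ : Fin n → L), (∀ i, (F i).IsHomogeneous 3) → (∀ i, aeval ξ (F i) = 0) →
      aeval ξ G ≠ 0 → ∃ x : Fin n → K, (∀ i, aeval x (F i) = 0) ∧ aeval x G ≠ 0 := by
    intro n F G ξ hF hξ hG
    obtain ⟨x, hx, hx'⟩ := cubic hL hO n 3 (F 0) G ξ le_rfl (hF 0) (hξ 0) hG
    refine ⟨x, fun i => ?_, hx'⟩
    rw [Subsingleton.elim i 0]
    exact hx
  have base2 : ∀ (n : ℕ) (F : Fin 2 → MvPolynomial (Fin n) K) (G : MvPolynomial (Fin n) K)
      (ξ : Fin n → L), (∀ i, (F i).IsHomogeneous 2) → (∀ i, aeval ξ (F i) = 0) →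
      aeval ξ G ≠ 0 → ∃ x : Fin n → K, (∀ i, aeval x (F i) = 0) ∧ aeval x G ≠ 0 := by
    intro n F G ξ hF hξ hG
    obtain ⟨x, hx1, hx2, hx'⟩ := quads hL hO n (F 0) (F 1) G ξ (hF 0) (hF 1) (hξ 0) (hξ 1) hG
    refine ⟨x, fun i => ?_, hx'⟩
    fin_cases i
    · exact hx1
    · exact hx2
  rcases degs _ hf with h1 | ⟨i, hi, hj⟩ | ⟨i, i', hi, hi', hj⟩
  · obtain ⟨x, hx1, -, hx'⟩ := affine base1 f (fun _ => 0) G ξ h1 (by simp) hξ (by simp) hG
    exact ⟨x, hx1, hx'⟩
  · obtain ⟨x, hx1, hx2, hx'⟩ := affine base1 (fun j => if j = i then 0 else f j) (fun _ => f i) G ξ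
      (fun j => by
        split_ifs with h2
        · simp
        · exact hj j h2) (fun _ => hi) (fun j => by
        split_ifs with h2
        · exact map_zero _
        · exact hξ j) (fun _ => hξ i) hG
    refine ⟨x, fun j => ?_, hx'⟩
    rcases eq_or_ne j i with rfl | hji
    · exact hx2 0
    · have := hx1 j
      rwa [if_neg hji] at this
  · obtain ⟨x, hx1, hx2, hx'⟩ := affine base2 (fun j => if j = i ∨ j = i' then 0 else f j)
      ![f i, f i'] G ξ
      (fun j => by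
        split_ifs with h2
        · simp
        · push Not at h2
          exact hj j h2.1 h2.2) (fun k => by
        fin_cases k
        · exact hi
        · exact hi') (fun j => by
        split_ifs with h2
        · exact map_zero _
        · exact hξ j) (fun k => by
        fin_cases k
        · exact hξ i
        · exact hξ i') hG
    refine ⟨x, fun j => ?_, hx'⟩
    rcases eq_or_ne j i with rfl | hji
    · exact hx2 0
    · rcases eq_or_ne j i' with rfl | hji'
      · exact hx2 1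
      · have := hx1 j
        rwa [if_neg (by tauto)] at this

end

end Pool.Agent.R4L
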