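import Pool.Agent.Lib.MP_4ed7e0_lc_LD.Cubic

/-!
Low degree case of (R4): pairs of quadratic forms, additional linear forms, homogenization.
-/

set_option autoImplicit false

namespace Pool.Agent.R4L

open MvPolynomial Pool.Agent.R4A

noncomputable section

universe u v

variable {K : Type u} [Field K]

/-- `ℓ ^ N * G(- q / ℓ, X)` -/
def ratio {n : ℕ} (l q : MvPolynomial (Fin n) K) (G : MvPolynomial (Fin (n + 1)) K) :
    MvPolynomial (Fin n) K :=
  ∑ k ∈ Finset.range ((finSuccEquiv K n G).natDegree + 1),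
    (-q) ^ k * l ^ ((finSuccEquiv K n G).natDegree - k) * cf k G

theorem ratio_eval {A : Type v} [CommRing A] [Algebra K A] {n : ℕ} (l q : MvPolynomial (Fin n) K)
    (G : MvPolynomial (Fin (n + 1)) K) (x0 : A) (x' : Fin n → A)
    (hx : aeval x' l * x0 = -aeval x' q) :
    aeval x' (ratio l q G) = (aeval x' l) ^ (finSuccEquiv K n G).natDegree *
      aeval (Fin.cons x0 x' : Fin (n + 1) → A) G := by
  rw [aeval_cons_sum G (Nat.lt_succ_self _), ratio, map_sum, Finset.mul_sum]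
  apply Finset.sum_congr rfl
  intro k hk
  rw [Finset.mem_range] at hk
  have h1 : (aeval x' l) ^ (finSuccEquiv K n G).natDegree =
      (aeval x' l) ^ k * (aeval x' l) ^ ((finSuccEquiv K n G).natDegree - k) := by
    rw [← pow_add]; congr 1; omega
  rw [map_mul, map_mul, map_pow, map_pow, map_neg, ← hx, h1]
  ring

theorem quad_eval {A : Type v} [CommRing A] [Algebra K A] {n : ℕ}
    {H : MvPolynomial (Fin (n + 1)) K} (hH : H.IsHomogeneous 2) (h0 : cf 2 H = 0) (x0 : A)
    (x' : Fin n → A) : aeval (Fin.cons x0 x' : Fin (n + 1) → A) H =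
      aeval x' (cf 0 H) + aeval x' (cf 1 H) * x0 := by
  rw [aeval_cons_sum H (Nat.lt_succ_of_le (cf_natDegree_le hH)), Finset.sum_range_succ,
    Finset.sum_range_succ, Finset.sum_range_one, h0, map_zero]
  ring

/-- pairs of quadratic forms -/
theorem quads (hK : Large K) {L : Type u} [Field L] [Algebra K L] {O : ValuationSubring L}
    (h : IsRat K O) : ∀ (n : ℕ) (F₁ F₂ G : MvPolynomial (Fin n) K) (ξ : Fin n → L),
      F₁.IsHomogeneous 2 → F₂.IsHomogeneous 2 → aeval ξ F₁ = 0 → aeval ξ F₂ = 0 →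
      aeval ξ G ≠ 0 → ∃ x : Fin n → K, aeval x F₁ = 0 ∧ aeval x F₂ = 0 ∧ aeval x G ≠ 0 := by
  have : Infinite K := large_inf hK
  intro n
  induction n with
  | zero =>
    intro F₁ F₂ G ξ _ _ hξ1 hξ2 hξG
    have : ξ = 0 := Subsingleton.elim _ _
    subst this
    exact ⟨0, aeval_zero_pt hξ1, aeval_zero_pt hξ2, aeval_zero_pt_ne hξG⟩
  | succ n ih =>
    intro F₁ F₂ G ξ hF1 hF2 hξ1 hξ2 hξG
    by_cases hξ : ξ = 0
    · subst hξ
      exact ⟨0, aeval_zero_pt hξ1, aeval_zero_pt hξ2, aeval_zero_pt_ne hξG⟩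
    obtain ⟨s, η0, η, hs, hη, hspec⟩ := wlog_coord h ξ hξ
    have hsub : ∀ Q : MvPolynomial (Fin (n + 1)) K,
        aeval (Fin.cons η0 η : Fin (n + 1) → L) (aeval s Q) = aeval ξ Q := by
      intro Q
      rw [aeval_sub]
      congr 2
      funext i
      exact hη i
    suffices hsuff : ∃ y : Fin (n + 1) → K, aeval y (aeval s F₁) = 0 ∧ aeval y (aeval s F₂) = 0 ∧
        aeval y (aeval s G) ≠ 0 by
      obtain ⟨y, hy1, hy2, hy'⟩ := hsuff
      rw [aeval_sub] at hy1 hy2 hy'
      exact ⟨_, hy1, hy2, hy'⟩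
    rw [← hsub] at hξ1 hξ2 hξG
    have hF1' := hom_sub hs hF1
    have hF2' := hom_sub hs hF2
    generalize (aeval s F₁ : MvPolynomial (Fin (n + 1)) K) = A₁ at hF1' hξ1 ⊢
    generalize (aeval s F₂ : MvPolynomial (Fin (n + 1)) K) = A₂ at hF2' hξ2 ⊢
    generalize (aeval s G : MvPolynomial (Fin (n + 1)) K) = G' at hξG ⊢
    have ht1 := top_zero hF1' (hspec A₁ 2 hF1' hξ1)
    have ht2 := top_zero hF2' (hspec A₂ 2 hF2' hξ2)
    have main : ∀ A₁ A₂ : MvPolynomial (Fin (n + 1)) K, A₁.IsHomogeneous 2 → A₂.IsHomogeneous 2 →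
        cf 2 A₁ = 0 → cf 2 A₂ = 0 → aeval (Fin.cons η0 η : Fin (n + 1) → L) A₁ = 0 →
        aeval (Fin.cons η0 η : Fin (n + 1) → L) A₂ = 0 → cf 1 A₁ ≠ 0 →
        ∃ y : Fin (n + 1) → K, aeval y A₁ = 0 ∧ aeval y A₂ = 0 ∧ aeval y G' ≠ 0 := by
      intro A₁ A₂ hA1 hA2 ht1 ht2 hξ1 hξ2 hl1
      by_cases hv : aeval η (cf 1 A₁) = 0
      · -- restrict to the hyperplane
        have hren : (rename Fin.succ (cf 1 A₁) : MvPolynomial (Fin (n + 1)) K).IsHomogeneous 1 :=
          (cf_hom hA1 (by norm_num)).rename_isHomogeneous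
        have hren0 : (rename Fin.succ (cf 1 A₁) : MvPolynomial (Fin (n + 1)) K) ≠ 0 := by
          rw [Ne, map_eq_zero_iff _ (rename_injective _ (Fin.succ_injective _))]
          exact hl1
        obtain ⟨s', hs', -, hsol⟩ := hyper hren hren0
        obtain ⟨ζ, hζ⟩ := hsol L (Fin.cons η0 η) (by
          rw [aeval_rename]
          exact hv)
        have hsub' : ∀ Q : MvPolynomial (Fin (n + 1)) K,
            aeval ζ (aeval s' Q) = aeval (Fin.cons η0 η : Fin (n + 1) → L) Q := by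
          intro Q
          rw [aeval_sub]
          congr 2
          funext i
          exact hζ i
        obtain ⟨y, hy1, hy2, hy'⟩ := ih (aeval s' A₁) (aeval s' A₂) (aeval s' G') ζ
          (hom_sub hs' hA1) (hom_sub hs' hA2) (by rw [hsub', hξ1]) (by rw [hsub', hξ2])
          (by rw [hsub']; exact hξG)
        rw [aeval_sub] at hy1 hy2 hy'
        exact ⟨_, hy1, hy2, hy'⟩
      · -- a cubic form in one variable less
        have hC : (cf 1 A₁ * cf 0 A₂ - cf 1 A₂ * cf 0 A₁).IsHomogeneous 3 :=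
          ((cf_hom hA1 (show 1 + 1 = 2 by norm_num)).mul
            (cf_hom hA2 (show 0 + 2 = 2 by norm_num))).sub
            ((cf_hom hA2 (show 1 + 1 = 2 by norm_num)).mul
            (cf_hom hA1 (show 0 + 2 = 2 by norm_num)))
        rw [quad_eval hA1 ht1] at hξ1
        rw [quad_eval hA2 ht2] at hξ2
        have hr := ratio_eval (cf 1 A₁) (cf 0 A₁) G' η0 η (by linear_combination hξ1)
        obtain ⟨x', hx, hx'⟩ := cubic hK h n 3 (cf 1 A₁ * cf 0 A₂ - cf 1 A₂ * cf 0 A₁)
          (cf 1 A₁ * ratio (cf 1 A₁) (cf 0 A₁) G') η le_rfl hC (by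
            rw [map_sub, map_mul, map_mul]
            linear_combination (aeval η (cf 1 A₁)) * hξ2 - (aeval η (cf 1 A₂)) * hξ1) (by
            rw [map_mul, hr]
            exact mul_ne_zero hv (mul_ne_zero (pow_ne_zero _ hv) hξG))
        rw [map_mul] at hx'
        have h1 := left_ne_zero_of_mul hx'
        have h2 := right_ne_zero_of_mul hx'
        have h3 : aeval x' (cf 1 A₁) * (-(aeval x' (cf 0 A₁)) / aeval x' (cf 1 A₁)) =
            -aeval x' (cf 0 A₁) := by
          field_simp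
        have hr' := ratio_eval (cf 1 A₁) (cf 0 A₁) G'
          (-(aeval x' (cf 0 A₁)) / aeval x' (cf 1 A₁)) x' h3
        rw [map_sub, map_mul, map_mul] at hx
        refine ⟨Fin.cons (-(aeval x' (cf 0 A₁)) / aeval x' (cf 1 A₁)) x', ?_, ?_, ?_⟩
        · rw [quad_eval hA1 ht1, h3]
          ring
        · rw [quad_eval hA2 ht2]
          have h4 : aeval x' (cf 1 A₁) * (aeval x' (cf 0 A₂) + aeval x' (cf 1 A₂) *
              (-(aeval x' (cf 0 A₁)) / aeval x' (cf 1 A₁))) = 0 := by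
            linear_combination hx + (aeval x' (cf 1 A₂)) * h3
          exact (mul_eq_zero.1 h4).resolve_left h1
        · intro h5
          rw [h5, mul_zero] at hr'
          exact h2 hr'
    by_cases hl1 : cf 1 A₁ = 0
    · by_cases hl2 : cf 1 A₂ = 0
      · -- both are cones
        have hval : ∀ (B : Type u) [CommRing B] [Algebra K B] (y0 : B) (y : Fin n → B),
            aeval (Fin.cons y0 y : Fin (n + 1) → B) A₁ = aeval y (cf 0 A₁) ∧
            aeval (Fin.cons y0 y : Fin (n + 1) → B) A₂ = aeval y (cf 0 A₂) := by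
          intro B _ _ y0 y
          rw [quad_eval hF1' ht1, quad_eval hF2' ht2, hl1, hl2]
          simp
        rw [(hval L η0 η).1] at hξ1
        rw [(hval L η0 η).2] at hξ2
        obtain ⟨k, hk⟩ := exists_coeff G' η0 η hξG
        obtain ⟨x', hx1, hx2, hx'⟩ := ih (cf 0 A₁) (cf 0 A₂) (cf k G') η
          (cf_hom hF1' (by norm_num)) (cf_hom hF2' (by norm_num)) hξ1 hξ2 hk
        obtain ⟨x0, hx0⟩ := cone_pt G' x' k hx'
        exact ⟨Fin.cons x0 x', by rw [(hval K x0 x').1, hx1], by rw [(hval K x0 x').2, hx2], hx0⟩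
      · obtain ⟨y, hy2, hy1, hy'⟩ := main A₂ A₁ hF2' hF1' ht2 ht1 hξ2 hξ1 hl2
        exact ⟨y, hy1, hy2, hy'⟩
    · exact main A₁ A₂ hF1' hF2' ht1 ht2 hξ1 hξ2 hl1

/-- additional linear forms -/
theorem lin_red {L : Type u} [Field L] [Algebra K L] {ι : Type} {d : ι → ℕ}
    (base : ∀ (n : ℕ) (F : ι → MvPolynomial (Fin n) K) (G : MvPolynomial (Fin n) K)
      (ξ : Fin n → L), (∀ i, (F i).IsHomogeneous (d i)) → (∀ i, aeval ξ (F i) = 0) →
      aeval ξ G ≠ 0 → ∃ x : Fin n → K, (∀ i, aeval x (F i) = 0) ∧ aeval x G ≠ 0) :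
    ∀ (m n : ℕ) (Λ : Fin m → MvPolynomial (Fin n) K) (F : ι → MvPolynomial (Fin n) K)
      (G : MvPolynomial (Fin n) K) (ξ : Fin n → L), (∀ j, (Λ j).IsHomogeneous 1) →
      (∀ i, (F i).IsHomogeneous (d i)) → (∀ j, aeval ξ (Λ j) = 0) → (∀ i, aeval ξ (F i) = 0) →
      aeval ξ G ≠ 0 → ∃ x : Fin n → K, (∀ j, aeval x (Λ j) = 0) ∧ (∀ i, aeval x (F i) = 0) ∧
        aeval x G ≠ 0 := by
  intro m
  induction m with
  | zero =>
    intro n Λ F G ξ _ hF _ hξF hξG
    obtain ⟨x, hx, hx'⟩ := base n F G ξ hF hξF hξG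
    exact ⟨x, fun j => j.elim0, hx, hx'⟩
  | succ m ih =>
    intro n Λ F G ξ hΛ hF hξΛ hξF hξG
    by_cases h0 : Λ 0 = 0
    · obtain ⟨x, hxΛ, hx, hx'⟩ := ih n (fun j => Λ j.succ) F G ξ (fun j => hΛ _) hF
        (fun j => hξΛ _) hξF hξG
      refine ⟨x, fun j => ?_, hx, hx'⟩
      refine Fin.cases ?_ (fun k => hxΛ k) j
      rw [h0, map_zero]
    · match n, Λ, F, G, ξ, hΛ, hF, hξΛ, hξF, hξG, h0 with
      | 0, Λ, F, G, ξ, hΛ, hF, hξΛ, hξF, hξG, h0 =>
        have : ξ = 0 := Subsingleton.elim _ _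
        subst this
        exact ⟨0, fun j => aeval_zero_pt (hξΛ j), fun i => aeval_zero_pt (hξF i),
          aeval_zero_pt_ne hξG⟩
      | n + 1, Λ, F, G, ξ, hΛ, hF, hξΛ, hξF, hξG, h0 =>
        obtain ⟨s, hs, hs0, hsol⟩ := hyper (hΛ 0) h0
        obtain ⟨η, hη⟩ := hsol L ξ (hξΛ 0)
        have hsub : ∀ Q : MvPolynomial (Fin (n + 1)) K, aeval η (aeval s Q) = aeval ξ Q := by
          intro Q
          rw [aeval_sub]
          congr 2
          funext i
          exact hη i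
        obtain ⟨y, hyΛ, hy, hy'⟩ := ih n (fun j => aeval s (Λ j.succ)) (fun i => aeval s (F i))
          (aeval s G) η (fun j => hom_sub hs (hΛ _)) (fun i => hom_sub hs (hF i))
          (fun j => by rw [hsub]; exact hξΛ _) (fun i => by rw [hsub]; exact hξF i)
          (by rw [hsub]; exact hξG)
        refine ⟨fun i => aeval y (s i), fun j => ?_, fun i => ?_, ?_⟩
        · refine Fin.cases ?_ (fun k => ?_) j
          · rw [← aeval_sub, hs0, map_zero]
          · rw [← aeval_sub]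
            exact hyΛ k
        · rw [← aeval_sub]
          exact hy i
        · rw [← aeval_sub]
          exact hy'

/-- homogenization -/
def hg {n : ℕ} (d : ℕ) (f : MvPolynomial (Fin n) K) : MvPolynomial (Fin (n + 1)) K :=
  ∑ k ∈ Finset.range (d + 1), X 0 ^ (d - k) * rename Fin.succ (homogeneousComponent k f)

theorem hg_hom {n : ℕ} (d : ℕ) (f : MvPolynomial (Fin n) K) : (hg d f).IsHomogeneous d := by
  apply IsHomogeneous.sum
  intro k hk
  rw [Finset.mem_range] at hk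
  have h1 : (X 0 ^ (d - k) * rename Fin.succ (homogeneousComponent k f) :
      MvPolynomial (Fin (n + 1)) K).IsHomogeneous (d - k + k) :=
    (isHomogeneous_X_pow 0 (d - k)).mul
      (homogeneousComponent_isHomogeneous k f).rename_isHomogeneous
  have h2 : d - k + k = d := by omega
  rwa [h2] at h1

theorem hg_eval {A : Type v} [CommRing A] [Algebra K A] {n d : ℕ} {f : MvPolynomial (Fin n) K}
    (hd : f.totalDegree ≤ d) (c : A) (x : Fin n → A) :
    aeval (Fin.cons c (fun i => c * x i) : Fin (n + 1) → A) (hg d f) = c ^ d * aeval x f := by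
  have h1 : f = ∑ k ∈ Finset.range (d + 1), homogeneousComponent k f := by
    conv_lhs => rw [← sum_homogeneousComponent f]
    apply Finset.sum_subset
    · intro k hk
      rw [Finset.mem_range] at hk ⊢
      omega
    · intro k _ hk
      rw [Finset.mem_range] at hk
      exact homogeneousComponent_eq_zero _ _ (by omega)
  conv_rhs => rw [h1]
  rw [map_sum, Finset.mul_sum, hg, map_sum]
  apply Finset.sum_congr rfl
  intro k hk
  rw [Finset.mem_range] at hk
  rw [map_mul, map_pow, aeval_X, aeval_rename]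
  have h2 : ((Fin.cons c (fun i => c * x i) : Fin (n + 1) → A) ∘ Fin.succ) =
      fun i => c * x i := by
    funext i; simp
  rw [h2, hom_smul (homogeneousComponent_isHomogeneous k f), Fin.cons_zero, ← mul_assoc,
    ← pow_add]
  congr 2
  omega

/-- affine version: a family of nonlinear equations of given degrees and any number of linear
equations -/
theorem affine {L : Type u} [Field L] [Algebra K L] {ι : Type} {d : ι → ℕ}
    (base : ∀ (n : ℕ) (F : ι → MvPolynomial (Fin n) K) (G : MvPolynomial (Fin n) K)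
      (ξ : Fin n → L), (∀ i, (F i).IsHomogeneous (d i)) → (∀ i, aeval ξ (F i) = 0) →
      aeval ξ G ≠ 0 → ∃ x : Fin n → K, (∀ i, aeval x (F i) = 0) ∧ aeval x G ≠ 0)
    {m n : ℕ} (Λ : Fin m → MvPolynomial (Fin n) K) (F : ι → MvPolynomial (Fin n) K)
    (G : MvPolynomial (Fin n) K) (ξ : Fin n → L) (hΛ : ∀ j, (Λ j).totalDegree ≤ 1)
    (hF : ∀ i, (F i).totalDegree ≤ d i) (hξΛ : ∀ j, aeval ξ (Λ j) = 0)
    (hξF : ∀ i, aeval ξ (F i) = 0) (hξG : aeval ξ G ≠ 0) :
    ∃ x : Fin n → K, (∀ j, aeval x (Λ j) = 0) ∧ (∀ i, aeval x (F i) = 0) ∧ aeval x G ≠ 0 := by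
  have hξ1 : (fun i => (1 : L) * ξ i) = ξ := by funext i; rw [one_mul]
  obtain ⟨y, hyΛ, hyF, hyG⟩ := lin_red base m (n + 1) (fun j => hg 1 (Λ j))
    (fun i => hg (d i) (F i)) (X 0 * hg G.totalDegree G) (Fin.cons 1 ξ) (fun j => hg_hom _ _)
    (fun i => hg_hom _ _)
    (fun j => by
      have h1 := hg_eval (hΛ j) (1 : L) ξ
      rw [hξ1] at h1
      rw [h1, hξΛ, mul_zero])
    (fun i => by
      have h1 := hg_eval (hF i) (1 : L) ξ
      rw [hξ1] at h1
      rw [h1, hξF, mul_zero])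
    (by
      have h1 := hg_eval (le_refl G.totalDegree) (1 : L) ξ
      rw [hξ1] at h1
      rw [map_mul, h1, aeval_X, Fin.cons_zero, one_pow, one_mul, one_mul]
      exact hξG)
  rw [map_mul, aeval_X] at hyG
  have hy0 := left_ne_zero_of_mul hyG
  have hyG' := right_ne_zero_of_mul hyG
  have hy : y = Fin.cons (y 0) (fun i => y 0 * ((y 0)⁻¹ * y i.succ)) := by
    funext i
    refine Fin.cases ?_ (fun k => ?_) i
    · simp
    · simp [mul_inv_cancel_left₀ hy0]
  refine ⟨fun i => (y 0)⁻¹ * y i.succ, fun j => ?_, fun i => ?_, ?_⟩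
  · have h1 := hg_eval (hΛ j) (y 0) (fun i => (y 0)⁻¹ * y i.succ)
    rw [← hy, hyΛ] at h1
    exact (mul_eq_zero.1 h1.symm).resolve_left (pow_ne_zero _ hy0)
  · have h1 := hg_eval (hF i) (y 0) (fun i => (y 0)⁻¹ * y i.succ)
    rw [← hy, hyF] at h1
    exact (mul_eq_zero.1 h1.symm).resolve_left (pow_ne_zero _ hy0)
  · intro h2
    have h1 := hg_eval (le_refl G.totalDegree) (y 0) (fun i => (y 0)⁻¹ * y i.succ)
    rw [← hy, h2, mul_zero] at h1
    exact hyG' h1

end

end Pool.Agent.R4L
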