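import Pool.Agent.Lib.MP_4ed7e0_lc_LD.Fac

/-!
Low degree case of (R4): the lemma of Hensel without the condition monic, smooth points.
-/

set_option autoImplicit false

namespace Pool.Agent.R4L

open MvPolynomial Pool.Agent.R4A

noncomputable section

universe u

variable {K : Type u} [Field K]

open Polynomial in
theorem hensel_zero (f : Polynomial (PowerSeries K))
    (h0 : PowerSeries.constantCoeff (f.coeff 0) = 0)
    (h1 : PowerSeries.constantCoeff (f.coeff 1) ≠ 0) :
    ∃ y : PowerSeries K, PowerSeries.constantCoeff y = 0 ∧ f.eval y = 0 := by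
  classical
  have hu : IsUnit (f.coeff 1) := by
    rw [PowerSeries.isUnit_iff_constantCoeff]
    exact isUnit_iff_ne_zero.2 h1
  obtain ⟨w, hw⟩ := hu.exists_right_inv
  set n := f.natDegree with hn
  have hn1 : 1 ≤ n := by
    rw [hn]
    apply Polynomial.le_natDegree_of_ne_zero
    intro hcon
    rw [hcon] at h1
    exact h1 (map_zero _)
  set c0 := f.coeff 0 with hc0
  -- the monic polynomial
  set r : Polynomial (PowerSeries K) := ∑ i ∈ Finset.Ico 2 (n + 1),
    Polynomial.C (f.coeff i * (-w) ^ i * c0 ^ (i - 1)) * Polynomial.X ^ (n - i) with hr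
  set g : Polynomial (PowerSeries K) := Polynomial.X ^ n + (-Polynomial.X ^ (n - 1) + r) with hg
  have hrd : r.degree < n := by
    rw [hr]
    refine (Polynomial.degree_sum_le _ _).trans_lt ?_
    rw [Finset.sup_lt_iff (by exact_mod_cast WithBot.bot_lt_coe n)]
    intro i hi
    rw [Finset.mem_Ico] at hi
    refine (Polynomial.degree_C_mul_X_pow_le _ _).trans_lt ?_
    exact_mod_cast (by omega : n - i < n)
  have hgm : g.Monic := by
    rw [hg]
    apply Polynomial.monic_X_pow_add
    refine (Polynomial.degree_add_le _ _).trans_lt ?_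
    rw [max_lt_iff]
    refine ⟨?_, hrd⟩
    rw [Polynomial.degree_neg]
    refine (Polynomial.degree_X_pow_le _).trans_lt ?_
    exact_mod_cast (by omega : n - 1 < n)
  have hcr : ∀ z : PowerSeries K, PowerSeries.constantCoeff (r.eval z) = 0 := by
    intro z
    rw [hr, Polynomial.eval_finsetSum, map_sum]
    apply Finset.sum_eq_zero
    intro i hi
    rw [Finset.mem_Ico] at hi
    simp only [Polynomial.eval_mul, Polynomial.eval_C, Polynomial.eval_pow, Polynomial.eval_X,
      map_mul, map_pow, h0]
    rw [zero_pow (by omega)]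
    ring
  have hcr' : ∀ z : PowerSeries K, PowerSeries.constantCoeff (r.derivative.eval z) = 0 := by
    intro z
    rw [hr, Polynomial.derivative_sum, Polynomial.eval_finsetSum, map_sum]
    apply Finset.sum_eq_zero
    intro i hi
    rw [Finset.mem_Ico] at hi
    have h2 : PowerSeries.constantCoeff (f.coeff i * (-w) ^ i * c0 ^ (i - 1)) = 0 := by
      rw [map_mul, map_pow, h0, zero_pow (by omega), mul_zero]
    rw [Polynomial.derivative_C_mul, Polynomial.eval_mul, Polynomial.eval_C, map_mul, h2, zero_mul]
  have hens : HenselianRing (PowerSeries K) (Ideal.span {(PowerSeries.X : PowerSeries K)}) :=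
    inferInstance
  obtain ⟨z, hz1, hz2⟩ := hens.is_henselian g hgm 1 (by
    rw [Ideal.mem_span_singleton, PowerSeries.X_dvd_iff, hg]
    simp only [Polynomial.eval_add, Polynomial.eval_neg, Polynomial.eval_pow, Polynomial.eval_X,
      one_pow, map_add, map_neg, map_one, hcr]
    ring) (by
    have h2 : IsUnit (g.derivative.eval 1) := by
      rw [PowerSeries.isUnit_iff_constantCoeff, hg]
      simp only [Polynomial.derivative_add, Polynomial.derivative_neg, Polynomial.derivative_X_pow,
        Polynomial.eval_add, Polynomial.eval_neg, Polynomial.eval_mul, Polynomial.eval_C,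
        Polynomial.eval_pow, Polynomial.eval_X, one_pow, mul_one, map_add, map_neg, hcr', add_zero]
      have h3 : (n : PowerSeries K) = ((n - 1 : ℕ) : PowerSeries K) + 1 := by
        have h4 : n = (n - 1) + 1 := by omega
        exact_mod_cast congrArg (Nat.cast : ℕ → PowerSeries K) h4
      rw [h3]
      simp
    exact h2.map _)
  rw [Ideal.mem_span_singleton, PowerSeries.X_dvd_iff, map_sub, sub_eq_zero, map_one] at hz2
  have hzu : IsUnit z := by
    rw [PowerSeries.isUnit_iff_constantCoeff, hz2]
    exact isUnit_one
  obtain ⟨z', hz'⟩ := hzu.exists_right_inv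
  refine ⟨-(c0 * w * z'), ?_, ?_⟩
  · simp only [map_neg, map_mul, h0]
    ring
  · have key : z ^ n * f.eval (-(c0 * w * z')) = c0 * g.eval z := by
      rw [Polynomial.eval_eq_sum_range, ← hn, Finset.range_eq_Ico,
        Finset.sum_eq_sum_Ico_succ_bot (by omega), Finset.sum_eq_sum_Ico_succ_bot (by omega)]
      rw [hg, hr]
      simp only [Polynomial.eval_add, Polynomial.eval_neg, Polynomial.eval_pow, Polynomial.eval_X,
        Polynomial.eval_finsetSum, Polynomial.eval_mul, Polynomial.eval_C, pow_zero, mul_one,
        zero_add, pow_one, mul_add]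
      have e1 : z ^ n * (f.coeff 1 * -(c0 * w * z')) = c0 * -z ^ (n - 1) := by
        have h5 : z ^ n = z ^ (n - 1) * z := by rw [← pow_succ]; congr 1; omega
        rw [h5]
        linear_combination (-(z ^ (n - 1) * c0)) * (f.coeff 1 * w * hz' + hw)
      have e2 : z ^ n * ∑ i ∈ Finset.Ico (0 + 1 + 1) (n + 1), f.coeff i * (-(c0 * w * z')) ^ i =
          c0 * ∑ i ∈ Finset.Ico 2 (n + 1), f.coeff i * (-w) ^ i * c0 ^ (i - 1) * z ^ (n - i) := by
        rw [Finset.mul_sum, Finset.mul_sum]
        apply Finset.sum_congr rfl
        intro i hi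
        rw [Finset.mem_Ico] at hi
        have h5 : z ^ n = z ^ (n - i) * z ^ i := by rw [← pow_add]; congr 1; omega
        have h6 : c0 ^ i = c0 ^ (i - 1) * c0 := by rw [← pow_succ]; congr 1; omega
        have h7 : (z * z') ^ i = 1 := by rw [hz', one_pow]
        have h8 : (-(c0 * w * z')) ^ i = (-w) ^ i * (c0 ^ (i - 1) * c0) * z' ^ i := by
          rw [← h6, ← mul_pow, ← mul_pow]
          congr 1
          ring
        rw [h5, h8]
        rw [mul_pow] at h7
        linear_combination (z ^ (n - i) * f.coeff i * (-w) ^ i * c0 ^ (i - 1) * c0) * h7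
      rw [e1, e2, hc0]
      ring
    have hz1' : g.eval z = 0 := hz1
    rw [hz1', mul_zero] at key
    exact (hzu.pow n).mul_right_eq_zero.1 key

open Polynomial in
theorem hensel_pt (f : Polynomial (PowerSeries K)) (a : K)
    (h0 : PowerSeries.constantCoeff (f.eval (PowerSeries.C a)) = 0)
    (h1 : PowerSeries.constantCoeff (f.derivative.eval (PowerSeries.C a)) ≠ 0) :
    ∃ y : PowerSeries K, PowerSeries.constantCoeff y = a ∧ f.eval y = 0 := by
  obtain ⟨y, hy, hy'⟩ := hensel_zero (f.comp (Polynomial.X + Polynomial.C (PowerSeries.C a)))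
    (by
      rw [Polynomial.coeff_zero_eq_eval_zero, Polynomial.eval_comp]
      simpa using h0)
    (by
      have h2 : (f.comp (Polynomial.X + Polynomial.C (PowerSeries.C a))).coeff 1 =
          (derivative (f.comp (Polynomial.X + Polynomial.C (PowerSeries.C a)))).coeff 0 := by
        rw [Polynomial.coeff_derivative]
        simp
      rw [h2, Polynomial.coeff_zero_eq_eval_zero, Polynomial.derivative_comp, Polynomial.eval_mul,
        Polynomial.eval_comp]
      simpa using h1)
  refine ⟨y + PowerSeries.C a, ?_, ?_⟩
  · rw [map_add, hy]; simp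
  · rw [Polynomial.eval_comp] at hy'
    simpa using hy'

/-- a smooth point of an irreducible hypersurface, the first coordinate being distinguished -/
theorem smooth0 (hK : Large K) {n : ℕ} (F G : MvPolynomial (Fin (n + 1)) K) (hF : Irreducible F)
    (hFG : ¬ F ∣ G) (a0 : K) (a : Fin n → K) (h0 : aeval (Fin.cons a0 a : Fin (n + 1) → K) F = 0)
    (h1 : (Polynomial.derivative (Polynomial.map (eval a) (finSuccEquiv K n F))).eval a0 ≠ 0) :
    ∃ x : Fin (n + 1) → K, aeval x F = 0 ∧ aeval x G ≠ 0 := by
  have : Infinite K := large_inf hK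
  have hf : Irreducible (finSuccEquiv K n F) := (MulEquiv.irreducible_iff _).2 hF
  have hfg : ¬ finSuccEquiv K n F ∣ finSuccEquiv K n G := by
    intro h
    exact hFG ((map_dvd_iff (finSuccEquiv K n)).1 h)
  have hd : (finSuccEquiv K n F).natDegree ≠ 0 := by
    intro h
    apply h1
    rw [Polynomial.eq_C_of_natDegree_eq_zero h]
    simp
  obtain ⟨A, B, D, hD, hAB⟩ := elim _ _ hf hd hfg
  obtain ⟨c, hc⟩ := exists_ne hD
  apply large_open hK
  -- the path
  let x' : Fin n → PowerSeries K := fun i =>
    PowerSeries.C (a i) + PowerSeries.X * PowerSeries.C (c i - a i)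
  have hx'0 : ∀ H : MvPolynomial (Fin n) K,
      PowerSeries.constantCoeff (aeval x' H) = aeval a H := by
    intro H
    induction H using MvPolynomial.induction_on with
    | C b =>
      rw [MvPolynomial.aeval_C, MvPolynomial.aeval_C, PowerSeries.algebraMap_apply]
      simp
    | add p q hp hq => rw [map_add, map_add, map_add, hp, hq]
    | mul_X p i hp =>
      rw [map_mul, map_mul, map_mul, hp, aeval_X, aeval_X]
      simp [x']
  -- the path is polynomial
  have hDx : aeval x' D ≠ 0 := by
    let y' : Fin n → Polynomial K := fun i =>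
      Polynomial.C (a i) + Polynomial.X * Polynomial.C (c i - a i)
    have h2 : ∀ H : MvPolynomial (Fin n) K, ((aeval y' H : Polynomial K) : PowerSeries K) =
        aeval x' H := by
      intro H
      induction H using MvPolynomial.induction_on with
      | C b =>
        rw [MvPolynomial.aeval_C, MvPolynomial.aeval_C, PowerSeries.algebraMap_apply,
          Polynomial.algebraMap_apply]
        simp
      | add p q hp hq => rw [map_add, map_add, Polynomial.coe_add, hp, hq]
      | mul_X p i hp =>
        rw [map_mul, map_mul, Polynomial.coe_mul, hp, aeval_X, aeval_X]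
        simp [x', y']
    have h3 : ∀ H : MvPolynomial (Fin n) K, (aeval y' H : Polynomial K).eval 1 = aeval c H := by
      intro H
      induction H using MvPolynomial.induction_on with
      | C b => simp
      | add p q hp hq => rw [map_add, map_add, Polynomial.eval_add, hp, hq]
      | mul_X p i hp =>
        rw [map_mul, map_mul, Polynomial.eval_mul, hp, aeval_X, aeval_X]
        simp [y']
    intro hcon
    rw [← h2] at hcon
    have h4 : (aeval y' D : Polynomial K) = 0 := by
      exact_mod_cast hcon
    have h5 := h3 D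
    rw [h4, Polynomial.eval_zero] at h5
    exact hc h5.symm
  -- Hensel
  have hfc : ∀ p : Polynomial (MvPolynomial (Fin n) K), ∀ b : K,
      PowerSeries.constantCoeff ((p.map (aeval x' : MvPolynomial (Fin n) K →ₐ[K]
        PowerSeries K).toRingHom).eval (PowerSeries.C b)) =
        (p.map (eval a)).eval b := by
    intro p b
    rw [Polynomial.eval_map, Polynomial.hom_eval₂, Polynomial.eval_map]
    have e1 : (PowerSeries.constantCoeff (R := K)).comp
        (aeval x' : MvPolynomial (Fin n) K →ₐ[K] PowerSeries K).toRingHom = eval a := by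
      apply RingHom.ext
      intro H
      exact hx'0 H
    rw [e1]
    simp
  obtain ⟨y, hy, hy'⟩ := hensel_pt ((finSuccEquiv K n F).map
    (aeval x' : MvPolynomial (Fin n) K →ₐ[K] PowerSeries K).toRingHom) a0 (by
      rw [hfc]
      rw [← MvPolynomial.eval_eq_eval_mv_eval']
      exact h0) (by
      rw [Polynomial.derivative_map, hfc, ← Polynomial.derivative_map]
      exact h1)
  have hF0 : aeval (Fin.cons y x' : Fin (n + 1) → PowerSeries K) F = 0 := by
    rw [aeval_cons, ← Polynomial.eval_map]
    exact hy'
  refine ⟨Fin.cons y x', hF0, ?_⟩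
  intro hG0
  apply hDx
  have h6 := congrArg (fun p : Polynomial (MvPolynomial (Fin n) K) =>
    p.eval₂ (aeval x' : MvPolynomial (Fin n) K →ₐ[K] PowerSeries K).toRingHom y) hAB
  simp only [Polynomial.eval₂_add, Polynomial.eval₂_mul, Polynomial.eval₂_C] at h6
  rw [← aeval_cons, ← aeval_cons, hF0, hG0, mul_zero, mul_zero, add_zero] at h6
  exact h6.symm

end

end Pool.Agent.R4L
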